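import Mathlib
import Pool.Agent.W522.T.Defs
import Pool.Agent.H204R3.GP.TateG

/-!
# Operators of small rank that kill the Tate forms
-/

namespace Pool.Agent.W522.J

open Module Pool.Agent.H204R3.SP Pool.Agent.H204R3.GP
open Pool.Agent.W522.T (AltDu)

variable {K : Type*} [Field K] {X : Type*} [AddCommGroup X] [Module K X]
  {Γ : Type*} [Group Γ]

/-- Some operator `x` that kills all Tate forms is small on `U`: `x - c` has rank one on `U` for
some scalar `c`; or `U` is self-dual with an alternating pairing and `x` has rank two on `U`, or
its square is zero and its rank is odd on `U`. -/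
def HasSmallOperator (R : Representation K Γ X) (χ : Γ →* K) (U : Submodule K X) : Prop :=
  ∃ x ∈ lieT R χ, (∃ c : K, finrank K (U.map (x - c • (1 : Module.End K X))) = 1) ∨
    (AltDu R χ U ∧ (finrank K (U.map x) = 2 ∨
      ((∀ u ∈ U, x (x u) = 0) ∧ Odd (finrank K (U.map x)))))

/-- Hodge-Tate operators: some operator that kills all Tate forms has the eigenvalues `1/2` and
`-1/2` only (for example `p - 1/2` where `p` is the projection to the part of weight one of the
Hodge-Tate decomposition). -/
def HasHodgeTate (R : Representation K Γ X) (χ : Γ →* K) : Prop :=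
  ∃ x ∈ lieT R χ, x * x = (1 / 4 : K) • (1 : Module.End K X)

/-- The theorem of Pink: the operators that commute with all operators `x` with `x ^ 2 = 1 / 4` that
kill the Tate forms commute with a subgroup of finite index. -/
def HodgeTateGenerate (R : Representation K Γ X) (χ : Γ →* K) : Prop :=
  ∀ P : Module.End K X, (∀ x ∈ lieT R χ, x * x = (1 / 4 : K) • 1 → P * x = x * P) →
    ∃ Δ : Subgroup Γ, Δ.FiniteIndex ∧ ∀ g ∈ Δ, P * R g = R g * P

end Pool.Agent.W522.J
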