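import Mathlib
import Pool.Agent.W522.H.H1

/-!
# Operators of small rank in the Lie algebra: families
-/

set_option linter.unusedSectionVars false

namespace Pool.Agent.W522.J

open Module Pool.Agent.H204R3.SP Pool.Agent.H204R3.GP Pool.Agent.W522.U
open Pool.Agent.W522.T (h0 nil_of_refl nil_of_sprefl exists_avoid cj cj_mem brk_mem_h0)

noncomputable section

/-- An operator which is a scalar plus an operator of rank one. -/
theorem rank_one_form {K V : Type*} [Field K] [AddCommGroup V] [Module K V]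
    {Y : Module.End K V} {c : K}
    (h : finrank K (LinearMap.range (Y - c • (1 : Module.End K V))) = 1) :
    ∃ (v : V) (ξ : Dual K V), v ≠ 0 ∧ ξ ≠ 0 ∧ ∀ w, Y w = c • w + ξ w • v := by
  obtain ⟨⟨d, hd⟩, hd0, hspan⟩ := finrank_eq_one_iff'.1 h
  have hd0' : d ≠ 0 := fun h => hd0 (Subtype.ext h)
  have hev : ∀ v, ∃ a : K, (Y - c • (1 : Module.End K V)) v = a • d := by
    intro v
    obtain ⟨a, ha⟩ := hspan ⟨(Y - c • (1 : Module.End K V)) v, v, rfl⟩
    exact ⟨a, (congrArg Subtype.val ha).symm⟩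
  choose φ hφ using hev
  let ξ : Dual K V :=
    { toFun := φ
      map_add' := by
        intro a b
        have h1 := hφ (a + b)
        rw [map_add, hφ, hφ, ← add_smul] at h1
        exact (smul_left_injective K hd0' h1).symm
      map_smul' := by
        intro a b
        have h1 := hφ (a • b)
        rw [map_smul, hφ, smul_smul] at h1
        exact (smul_left_injective K hd0' h1).symm }
  have hξ : ∀ w, ξ w = φ w := fun _ => rfl
  refine ⟨d, ξ, hd0', ?_, fun w => ?_⟩
  · intro h0
    obtain ⟨v, hv⟩ := hd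
    rw [hφ, ← hξ, h0, LinearMap.zero_apply, zero_smul] at hv
    exact hd0' hv.symm
  · have h1 := hφ w
    rw [hξ, ← h1, LinearMap.sub_apply, LinearMap.smul_apply, Module.End.one_apply]
    abel

/-- A basis with two given coordinates. -/
theorem exists_basis2 {K V : Type*} [Field K] [AddCommGroup V] [Module K V]
    [FiniteDimensional K V] {v₁ v₂ : V} {ξ₁ ξ₂ : Dual K V} (e11 : ξ₁ v₁ = 1) (e12 : ξ₁ v₂ = 0)
    (e21 : ξ₂ v₁ = 0) (e22 : ξ₂ v₂ = 1) : ∃ (n : ℕ) (b : Basis (Fin 2 ⊕ Fin n) K V),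
      b (Sum.inl 0) = v₁ ∧ b (Sum.inl 1) = v₂ ∧ (∀ w, b.coord (Sum.inl 0) w = ξ₁ w) ∧
      ∀ w, b.coord (Sum.inl 1) w = ξ₂ w := by
  classical
  let W : Submodule K V := LinearMap.ker ξ₁ ⊓ LinearMap.ker ξ₂
  let P : V →ₗ[K] V := LinearMap.id - ξ₁.smulRight v₁ - ξ₂.smulRight v₂
  have hP : ∀ x, P x = x - ξ₁ x • v₁ - ξ₂ x • v₂ := fun _ => rfl
  have hPW : ∀ x, P x ∈ W := by
    intro x
    refine Submodule.mem_inf.2 ⟨?_, ?_⟩
    · rw [LinearMap.mem_ker, hP, map_sub, map_sub, map_smul, map_smul, e11, e12]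
      simp
    · rw [LinearMap.mem_ker, hP, map_sub, map_sub, map_smul, map_smul, e21, e22]
      simp
  let F : V →ₗ[K] (Fin 2 → K) × W :=
    (LinearMap.pi ![ξ₁, ξ₂]).prod (P.codRestrict W hPW)
  let G : (Fin 2 → K) × W →ₗ[K] V :=
    (((LinearMap.proj 0 : (Fin 2 → K) →ₗ[K] K).smulRight v₁ +
      (LinearMap.proj 1 : (Fin 2 → K) →ₗ[K] K).smulRight v₂).coprod W.subtype)
  have hG : ∀ c w, G (c, w) = c 0 • v₁ + c 1 • v₂ + w := fun _ _ => rfl
  have hF1 : ∀ x, (F x).1 0 = ξ₁ x := fun _ => rfl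
  have hF2 : ∀ x, (F x).1 1 = ξ₂ x := fun _ => rfl
  have hF3 : ∀ x, (((F x).2 : W) : V) = P x := fun _ => rfl
  let e : V ≃ₗ[K] (Fin 2 → K) × W := LinearEquiv.ofLinearMap F G (by
    refine LinearMap.ext fun x => ?_
    obtain ⟨c, w⟩ := x
    have hw := Submodule.mem_inf.1 w.2
    have hw1 : ξ₁ w = 0 := LinearMap.mem_ker.1 hw.1
    have hw2 : ξ₂ w = 0 := LinearMap.mem_ker.1 hw.2
    have h1 : ξ₁ (G (c, w)) = c 0 := by
      rw [hG, map_add, map_add, map_smul, map_smul, e11, e12, hw1]
      simp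
    have h2 : ξ₂ (G (c, w)) = c 1 := by
      rw [hG, map_add, map_add, map_smul, map_smul, e21, e22, hw2]
      simp
    refine Prod.ext ?_ ?_
    · funext k
      fin_cases k
      · exact h1
      · exact h2
    · apply Subtype.ext
      change P (G (c, w)) = w
      rw [hP, h1, h2, hG]
      abel) (by
    refine LinearMap.ext fun x => ?_
    change ξ₁ x • v₁ + ξ₂ x • v₂ + P x = x
    rw [hP]
    abel)
  have he : ∀ x, e x = F x := fun _ => rfl
  have hes : ∀ y, e.symm y = G y := fun _ => rfl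
  refine ⟨finrank K W, ((Pi.basisFun K (Fin 2)).prod (Module.finBasis K W)).map e.symm,
    ?_, ?_, fun w => ?_, fun w => ?_⟩
  · rw [Basis.map_apply, hes, Basis.prod_apply]
    simp [hG]
  · rw [Basis.map_apply, hes, Basis.prod_apply]
    simp [hG]
  · rw [Basis.coord_apply, Basis.map_repr]
    simp [he, hF1]
  · rw [Basis.coord_apply, Basis.map_repr]
    simp [he, hF2]

/-- Alternation from an operator which is a scalar plus an operator of rank one. -/
theorem alt_of_rank_one {K V : Type*} [Field K] [CharZero K] [IsAlgClosed K] [AddCommGroup V] [Module K V]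
    [FiniteDimensional K V] {G : Type*} [Group G] {r : Representation K G V} (hirr : Irr r)
    (h3 : 3 ≤ finrank K V) (β : V →ₗ[K] V →ₗ[K] K) {ψ : G → K}
    (hβ : ∀ g u v, β (r g u) (r g v) = ψ g * β u v) {c : K} {v : V} {ξ : Dual K V} (hv : v ≠ 0)
    (hξ : ξ ≠ 0)
    (hsk : ∀ a b, β (c • a + ξ a • v) b + β a (c • b + ξ b • v) = 0) (u : V) : β u u = 0 := by
  let B := β + β.flip
  have hB' : ∀ u v, B u v = β u v + β v u := fun _ _ => rfl
  have hBr : ∀ g u v, B (r g u) (r g v) = ψ g * B u v := by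
    intro g u v
    rw [hB', hB', hβ, hβ, mul_add]
  have hB0 : B = 0 := by
    by_contra h0
    have hnd := Pool.Agent.W522.S.pair_nd hirr h0 hBr
    have hsym : ∀ a b, B a b = B b a := fun a b => by rw [hB', hB', add_comm]
    have hs : ∀ a b, 2 * c * B a b + ξ a * B v b + ξ b * B a v = 0 := by
      intro a b
      have h1 := hsk a b
      have h2 := hsk b a
      simp only [map_add, map_smul, LinearMap.add_apply, LinearMap.smul_apply, smul_eq_mul]
        at h1 h2
      rw [hB', hB', hB']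
      linear_combination h1 + h2
    -- the scalar is zero
    have hc : c = 0 := by
      obtain ⟨a, ha, ha0⟩ : ∃ a ∈ LinearMap.ker ξ ⊓ LinearMap.ker (B v), a ≠ 0 := by
        apply Submodule.exists_mem_ne_zero_of_ne_bot
        intro h
        have h1 := Submodule.finrank_sup_add_finrank_inf_eq (LinearMap.ker ξ)
          (LinearMap.ker (B v))
        have h10 := Submodule.finrank_le (LinearMap.ker ξ ⊔ LinearMap.ker (B v))
        have h4 : ∀ f : Dual K V, finrank K V ≤ finrank K (LinearMap.ker f) + 1 := by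
          intro f
          have h5 := LinearMap.finrank_range_add_finrank_ker f
          have h6 : finrank K (LinearMap.range f) ≤ 1 := by
            have h7 := Submodule.finrank_le (LinearMap.range f)
            rwa [finrank_self] at h7
          omega
        have h8 := h4 ξ
        have h9 := h4 (B v)
        rw [h, finrank_bot] at h1
        omega
      obtain ⟨ha1, ha2⟩ := Submodule.mem_inf.1 ha
      rw [LinearMap.mem_ker] at ha1 ha2
      by_contra hc0
      apply ha0
      apply hnd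
      intro b
      have h1 := hs a b
      rw [ha1, zero_mul, add_zero, hsym a v, ha2, mul_zero, add_zero] at h1
      exact (mul_eq_zero.1 h1).resolve_left (mul_ne_zero two_ne_zero hc0)
    obtain ⟨a, ha⟩ : ∃ a, ξ a ≠ 0 := by
      by_contra h
      push Not at h
      exact hξ (LinearMap.ext h)
    have hav : B v a = 0 := by
      have h1 := hs a a
      rw [hc, hsym a v] at h1
      have h4 : ξ a * (2 * B v a) = 0 := by linear_combination h1
      rcases mul_eq_zero.1 h4 with h5 | h5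
      · exact absurd h5 ha
      · exact (mul_eq_zero.1 h5).resolve_left two_ne_zero
    apply hv
    refine hnd v fun b => ?_
    have h1 := hs a b
    rw [hc, hsym a v, hav, mul_zero, mul_zero, add_zero, zero_mul, zero_add] at h1
    exact (mul_eq_zero.1 h1).resolve_left ha
  have h3 := hB' u u
  rw [hB0, LinearMap.zero_apply, LinearMap.zero_apply, ← two_mul] at h3
  exact (mul_eq_zero.1 h3.symm).resolve_left two_ne_zero

variable {K : Type*} [Field K] [CharZero K]
  {I : Type*} [Fintype I] [DecidableEq I] {E : I → Type*} [∀ i, AddCommGroup (E i)]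
  [∀ i, Module K (E i)] [∀ i, FiniteDimensional K (E i)] {G : Type*} [Group G]
  {r : ∀ i, Representation K G (E i)} {χ : G →* K}

/-- A scalar plus an operator of rank one produces a transvection. -/
theorem nil_of_rank_one {i : I} (hirr : Irr (r i)) (h2 : 2 ≤ finrank K (E i))
    {X : ∀ i, Module.End K (E i)} (hX : X ∈ hh r χ) {c₀ : K} {v : E i} {ξ : Dual K (E i)}
    (hv : v ≠ 0) (hξ : ξ ≠ 0) (hXi : ∀ w, X i w = c₀ • w + ξ w • v) :
    ∃ Z ∈ h0 r χ, ∃ (u : E i) (φ : Dual K (E i)), u ≠ 0 ∧ φ ≠ 0 ∧ φ u = 0 ∧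
      Z i = φ.smulRight u := by
  classical
  by_cases hs : ξ v = 0
  swap
  · refine nil_of_refl hirr h2 hX (c₀ := c₀) (c₁ := ξ v) hs (v := v) (ξ := (ξ v)⁻¹ • ξ) ?_
      fun w => ?_
    · rw [LinearMap.smul_apply, smul_eq_mul, inv_mul_cancel₀ hs]
    · rw [hXi, LinearMap.smul_apply, smul_eq_mul, ← mul_assoc, mul_inv_cancel₀ hs, one_mul]
  obtain ⟨g, hg⟩ := exists_avoid hirr hv {LinearMap.ker ξ} (by
    intro W hW
    rw [Finset.mem_singleton] at hW
    subst hW
    intro h
    exact hξ (LinearMap.ker_eq_top.1 h))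
  have hgv : ξ (r i g v) ≠ 0 := fun h => hg _ (by simp) (LinearMap.mem_ker.2 h)
  set Y := cj r g X with hY
  have hYm : Y ∈ hh r χ := cj_mem g hX
  have h1 : brk X Y ∈ h0 r χ := brk_mem_h0 r χ hX hYm
  have hYi : ∀ w, Y i w = c₀ • w + ξ (r i g⁻¹ w) • r i g v := by
    intro w
    change r i g (X i (r i g⁻¹ w)) = _
    rw [hXi, map_add, map_smul, map_smul, Pool.Agent.W522.U.r_inv']
  have hb : ∀ (A B : ∀ i, Module.End K (E i)) (w : E i), brk A B i w = A i (B i w) - B i (A i w) :=
    fun _ _ _ => rfl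
  by_cases hs' : ξ (r i g⁻¹ v) = 0
  · refine ⟨brk X Y, h1, v, ξ (r i g v) • ξ.comp (r i g⁻¹), hv, ?_, ?_, ?_⟩
    · intro h
      rcases smul_eq_zero.1 h with h4 | h4
      · exact hgv h4
      · apply hξ
        refine LinearMap.ext fun w => ?_
        have h5 := congrArg (fun f : Dual K (E i) => f (r i g w)) h4
        change ξ (r i g⁻¹ (r i g w)) = 0 at h5
        rw [Pool.Agent.W522.U.r_inv] at h5
        exact h5
    · rw [LinearMap.smul_apply, LinearMap.comp_apply, hs', smul_zero]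
    · refine LinearMap.ext fun w => ?_
      rw [hb]
      simp only [hXi, hYi, map_add, map_smul, smul_eq_mul, hs, hs', LinearMap.smulRight_apply,
        LinearMap.smul_apply, LinearMap.comp_apply]
      module
  · have h3 : brk X (brk X Y) ∈ h0 r χ := brk_mem_h0 r χ hX h1.1
    refine ⟨brk X (brk X Y), h3, v, (-2 * ξ (r i g⁻¹ v) * ξ (r i g v)) • ξ, hv, ?_, ?_, ?_⟩
    · intro h
      rcases smul_eq_zero.1 h with h4 | h4
      · exact mul_ne_zero (mul_ne_zero (neg_ne_zero.2 two_ne_zero) hs') hgv h4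
      · exact hξ h4
    · rw [LinearMap.smul_apply, hs, smul_zero]
    · refine LinearMap.ext fun w => ?_
      rw [hb, hb, hb]
      simp only [hXi, hYi, map_add, map_sub, map_smul, smul_eq_mul, hs, LinearMap.smulRight_apply,
        LinearMap.smul_apply, LinearMap.comp_apply]
      module

/-- A semisimple operator of rank two produces a transvection. -/
theorem nil_of_rank_two_ss {i : I} (hirr : Irr (r i)) (h2 : 2 ≤ finrank K (E i))
    (B : E i →ₗ[K] E i →ₗ[K] K) (hnd : ∀ u, (∀ v, B u v = 0) → u = 0) (halt : ∀ u, B u u = 0)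
    (hsim : ∀ g u v, B (r i g u) (r i g v) = χ g * B u v)
    (hsp : ∀ X ∈ hh r χ, ∀ u v, B (X i u) v + B u (X i v) = 0)
    {X : ∀ i, Module.End K (E i)} (hX : X ∈ hh r χ) {a b : E i} (hab : B a b ≠ 0)
    (hXi : X i = SS B a b) :
    ∃ Z ∈ h0 r χ, ∃ (u : E i) (φ : Dual K (E i)), u ≠ 0 ∧ φ ≠ 0 ∧ φ u = 0 ∧
      Z i = φ.smulRight u := by
  classical
  have hskew : ∀ u v, B u v = -B v u := by
    intro u v
    have h1 := halt (u + v)
    simp only [map_add, LinearMap.add_apply, halt, zero_add, add_zero] at h1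
    linear_combination h1
  have hinj : Function.Injective B := by
    rw [injective_iff_map_eq_zero]
    intro u hu
    exact hnd u fun v => congrArg (fun f : Dual K (E i) => f v) hu
  obtain ⟨n, bb, hb1, hb2, hc1, hc2⟩ := exists_basis2 (K := K) (v₁ := b) (v₂ := a)
    (ξ₁ := (B a b)⁻¹ • B a) (ξ₂ := -((B a b)⁻¹ • B b))
    (by rw [LinearMap.smul_apply, smul_eq_mul, inv_mul_cancel₀ hab])
    (by rw [LinearMap.smul_apply, halt, smul_zero])
    (by rw [LinearMap.neg_apply, LinearMap.smul_apply, halt, smul_zero, neg_zero])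
    (by rw [LinearMap.neg_apply, LinearMap.smul_apply, hskew b a, smul_neg, neg_neg, smul_eq_mul,
      inv_mul_cancel₀ hab])
  refine nil_of_sprefl hirr h2 B hinj halt hsim hsp hX (c₀ := 0) (δ := B a b) hab bb
    (k₁ := Sum.inl 0) (k₂ := Sum.inl 1) (by simp) fun w => ?_
  rw [hXi, SS_apply, hc1, hc2, hb1, hb2, zero_smul, zero_add, LinearMap.neg_apply,
    LinearMap.smul_apply, LinearMap.smul_apply, smul_eq_mul, smul_eq_mul, mul_neg, ← mul_assoc,
    ← mul_assoc, mul_inv_cancel₀ hab, one_mul, one_mul, neg_smul, sub_neg_eq_add]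

/-- The full symplectic Lie algebra contains a transvection. -/
theorem nil_of_all {i : I} (h2 : 2 ≤ finrank K (E i))
    (B : E i →ₗ[K] E i →ₗ[K] K) (hnd : ∀ u, (∀ v, B u v = 0) → u = 0) (halt : ∀ u, B u u = 0)
    (hall : ∀ u v, SS B u v ∈ (hh r χ).map (LinearMap.proj i)) :
    ∃ Z ∈ h0 r χ, ∃ (u : E i) (φ : Dual K (E i)), u ≠ 0 ∧ φ ≠ 0 ∧ φ u = 0 ∧
      Z i = φ.smulRight u := by
  have hskew : ∀ u v, B u v = -B v u := by
    intro u v
    have h1 := halt (u + v)
    simp only [map_add, LinearMap.add_apply, halt, zero_add, add_zero] at h1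
    linear_combination h1
  have _ : Nontrivial (E i) := Module.nontrivial_of_finrank_pos (R := K) (by omega)
  obtain ⟨w, hw⟩ := _root_.exists_ne (0 : E i)
  obtain ⟨w', hw'⟩ : ∃ w', B w w' ≠ 0 := by
    by_contra h
    push Not at h
    exact hw (hnd w h)
  obtain ⟨Z1, hZ1, h3⟩ := hall w w
  obtain ⟨Z2, hZ2, h4⟩ := hall w w'
  have h3' : Z1 i = SS B w w := h3
  have h4' : Z2 i = SS B w w' := h4
  refine ⟨brk Z1 Z2, brk_mem_h0 r χ hZ1 hZ2, w, (4 * B w w') • B w, hw, ?_, ?_, ?_⟩
  · intro h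
    rcases smul_eq_zero.1 h with h5 | h5
    · exact mul_ne_zero (by norm_num) hw' h5
    · apply hw'
      rw [h5, LinearMap.zero_apply]
  · rw [LinearMap.smul_apply, halt, smul_zero]
  · refine LinearMap.ext fun v => ?_
    change Z1 i (Z2 i v) - Z2 i (Z1 i v) = _
    rw [h3', h4']
    simp only [SS_apply, map_add, map_smul, LinearMap.smulRight_apply, LinearMap.smul_apply,
      smul_eq_mul, halt]
    rw [hskew w' w]
    module

end

end Pool.Agent.W522.J
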