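import Mathlib
import Pool.Agent.W522.J.J1
import Pool.Agent.W528.Odd.Final2
import Pool.Agent.W528.Tor.Rank

/-!
# Operators of rank two and square-zero operators of odd rank
-/

set_option linter.unusedSectionVars false

namespace Pool.Agent.W522.J

open Module Pool.Agent.H204R3.SP Pool.Agent.H204R3.GP Pool.Agent.W522.U Pool.Agent.W529.Ta
open Pool.Agent.W528.Odd (SIrr CoreProp fi_comap un1 sq_mul_mem sIrr_res rk_res sq_res exists_ne
  exists_rank_one_odd irr_weak all_of_rank_one rk WeakHodgeGenerate)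

noncomputable section

section grp

variable {K : Type} [Field K] [CharZero K] {V : Type} [AddCommGroup V] [Module K V]
  [FiniteDimensional K V]

/-- The group of the similitudes that normalise `𝔥`. -/
def Sm (ω : V →ₗ[K] V →ₗ[K] K) (𝔥 : Submodule K (Module.End K V)) :
    Subgroup ((Module.End K V)ˣ × Kˣ) where
  carrier := {g | (∀ u v, ω (g.1.1 u) (g.1.1 v) = g.2.1 * ω u v) ∧
    (∀ x ∈ 𝔥, g.1.1 * x * (g.1⁻¹).1 ∈ 𝔥) ∧ ∀ x ∈ 𝔥, (g.1⁻¹).1 * x * g.1.1 ∈ 𝔥}
  one_mem' := by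
    refine ⟨fun u v => ?_, fun x hx => ?_, fun x hx => ?_⟩
    · change ω u v = 1 * ω u v
      rw [one_mul]
    · simpa using hx
    · simpa using hx
  mul_mem' := by
    rintro a b ⟨ha0, ha1, ha2⟩ ⟨hb0, hb1, hb2⟩
    refine ⟨fun u v => ?_, fun x hx => ?_, fun x hx => ?_⟩
    · change ω (a.1.1 (b.1.1 u)) (a.1.1 (b.1.1 v)) = a.2.1 * b.2.1 * ω u v
      rw [ha0, hb0, mul_assoc]
    · have h := ha1 _ (hb1 x hx)
      rw [Prod.fst_mul, mul_inv_rev, Units.val_mul, Units.val_mul]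
      simpa only [mul_assoc] using h
    · have h := hb2 _ (ha2 x hx)
      rw [Prod.fst_mul, mul_inv_rev, Units.val_mul, Units.val_mul]
      simpa only [mul_assoc] using h
  inv_mem' := by
    rintro a ⟨ha0, ha1, ha2⟩
    refine ⟨fun u v => ?_, fun x hx => ?_, fun x hx => ?_⟩
    · have h := ha0 ((a.1⁻¹).1 u) ((a.1⁻¹).1 v)
      have h1 : ∀ w, a.1.1 ((a.1⁻¹).1 w) = w := fun w => by
        rw [← Module.End.mul_apply, Units.mul_inv, Module.End.one_apply]
      rw [h1, h1] at h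
      change ω ((a.1⁻¹).1 u) ((a.1⁻¹).1 v) = (a.2⁻¹).1 * ω u v
      rw [h, ← mul_assoc, Units.inv_mul, one_mul]
    · exact ha2 x hx
    · rw [Prod.fst_inv, inv_inv]
      exact ha1 x hx

/-- The representation of the group of similitudes. -/
def rS (ω : V →ₗ[K] V →ₗ[K] K) (𝔥 : Submodule K (Module.End K V)) :
    Representation K (Sm ω 𝔥) V :=
  ((Units.coeHom (Module.End K V)).comp (MonoidHom.fst _ _)).comp (Sm ω 𝔥).subtype

/-- The multiplier. -/
def χS (ω : V →ₗ[K] V →ₗ[K] K) (𝔥 : Submodule K (Module.End K V)) : Sm ω 𝔥 →* K :=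
  ((Units.coeHom K).comp (MonoidHom.snd _ _)).comp (Sm ω 𝔥).subtype

variable {𝔥 : Submodule K (Module.End K V)} {Γ : Type} [Group Γ] (ρ : Representation K Γ V)
  (χ : Γ →* K) (ω : V →ₗ[K] V →ₗ[K] K)

/-- The homomorphism to the group of similitudes. -/
def toS (hconj : ∀ s : Γ, ∀ X ∈ 𝔥, ρ s * X * ρ s⁻¹ ∈ 𝔥)
    (hωρ : ∀ s u v, ω (ρ s u) (ρ s v) = χ s * ω u v) : Γ →* Sm ω 𝔥 where
  toFun g := ⟨(Pool.Agent.W528.Odd.un ρ g, MonoidHom.toHomUnits χ g),
    fun u v => hωρ g u v, fun x hx => hconj g x hx, fun x hx => by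
      have h := hconj g⁻¹ x hx
      rw [inv_inv] at h
      exact h⟩
  map_one' := by
    apply Subtype.ext
    refine Prod.ext (Units.ext ?_) ?_
    · exact map_one ρ
    · exact map_one (MonoidHom.toHomUnits χ)
  map_mul' a b := by
    apply Subtype.ext
    refine Prod.ext (Units.ext ?_) ?_
    · exact map_mul ρ a b
    · exact map_mul (MonoidHom.toHomUnits χ) a b

/-- A Lie algebra of symplectic operators with a square-zero element of rank two. -/
theorem all_of_nil_two [IsAlgClosed K] (hirr : SIrr ρ)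
    (hbr : ∀ X ∈ 𝔥, ∀ Y ∈ 𝔥, X * Y - Y * X ∈ 𝔥)
    (hconj : ∀ s : Γ, ∀ X ∈ 𝔥, ρ s * X * ρ s⁻¹ ∈ 𝔥)
    (halt : ∀ v, ω v v = 0) (hnd : ∀ u, (∀ v, ω v u = 0) → u = 0)
    (hωρ : ∀ s u v, ω (ρ s u) (ρ s v) = χ s * ω u v)
    (hsp : ∀ X ∈ 𝔥, ∀ u w, ω (X u) w + ω u (X w) = 0) {a b : V} (hab : ω a b = 0)
    (hN : SS ω a b ≠ 0) (hmem : SS ω a b ∈ 𝔥) : ∀ u v, SS ω u v ∈ 𝔥 := by
  have hn : SS ω a b * SS ω a b = 0 := Pool.Agent.W528.Tor.SS_sq_zero ω halt hab
  have ht : ((un1 hn, 1) : (Module.End K V)ˣ × Kˣ) ∈ Sm ω 𝔥 := by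
    refine ⟨fun u v => ?_, fun x hx => ?_, fun x hx => ?_⟩
    · change ω ((1 + SS ω a b) u) ((1 + SS ω a b) v) = 1 * ω u v
      have h1 := hsp _ hmem u v
      have h2 := hsp _ hmem u (SS ω a b v)
      have h3 : SS ω a b (SS ω a b v) = 0 := by
        rw [← Module.End.mul_apply, hn, LinearMap.zero_apply]
      rw [h3, map_zero, add_zero] at h2
      rw [LinearMap.add_apply, LinearMap.add_apply, Module.End.one_apply, Module.End.one_apply,
        map_add, map_add, LinearMap.add_apply, LinearMap.add_apply, h2]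
      linear_combination h1
    · have h1 : (1 + SS ω a b) * x * (1 - SS ω a b) =
          x + (SS ω a b * x - x * SS ω a b) - SS ω a b * x * SS ω a b := by noncomm_ring
      change (1 + SS ω a b) * x * (1 - SS ω a b) ∈ 𝔥
      rw [h1]
      exact 𝔥.sub_mem (𝔥.add_mem hx (hbr _ hmem _ hx)) (sq_mul_mem hbr hmem hn hx)
    · have h1 : (1 - SS ω a b) * x * (1 + SS ω a b) =
          x - (SS ω a b * x - x * SS ω a b) - SS ω a b * x * SS ω a b := by noncomm_ring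
      change (1 - SS ω a b) * x * (1 + SS ω a b) ∈ 𝔥
      rw [h1]
      exact 𝔥.sub_mem (𝔥.sub_mem hx (hbr _ hmem _ hx)) (sq_mul_mem hbr hmem hn hx)
  refine Pool.Agent.W528.Tor.core ω (rS ω 𝔥) (χS ω 𝔥) halt hnd (fun s u v => s.2.1 u v)
    (fun Δ hΔ U hU => ?_) 𝔥 hbr (fun s X hX => s.2.2.1 X hX) hsp hab hN hmem (t := ⟨_, ht⟩) rfl
  exact hirr (Δ.comap (toS ρ χ ω hconj hωρ)) (fi_comap _ Δ hΔ) U fun g hg u hu => hU _ hg u hu

/-- A skew operator of rank at most two. -/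
theorem exists_SS' [IsAlgClosed K] (halt : ∀ v, ω v v = 0) (hnd : ∀ u, (∀ v, ω v u = 0) → u = 0)
    {N : Module.End K V} (hsp : ∀ u w, ω (N u) w + ω u (N w) = 0)
    (hr : finrank K (LinearMap.range N) ≤ 2) : ∃ a b, N = SS ω a b := by
  by_cases hN : N = 0
  · refine ⟨0, 0, ?_⟩
    rw [hN]
    refine LinearMap.ext fun v => ?_
    rw [SS_apply]
    simp
  obtain ⟨c, p, N', h1, h3, h4⟩ := Pool.Agent.W528.Tor.peel ω halt hnd hsp hN
  by_cases hN' : N' = 0
  · refine ⟨c • p, p, ?_⟩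
    rw [h1, hN', zero_add]
    refine LinearMap.ext fun v => ?_
    rw [LinearMap.smul_apply, SS_apply, SS_apply, map_smul, LinearMap.smul_apply, smul_eq_mul]
    module
  obtain ⟨c', p', N'', h5, h6, h7⟩ := Pool.Agent.W528.Tor.peel ω halt hnd h3 hN'
  have h8 : N'' = 0 := Pool.Agent.W528.Tor.range_eq_zero (by omega)
  obtain ⟨s, hs⟩ := IsAlgClosed.exists_pow_nat_eq c (n := 2) two_pos
  obtain ⟨r, hr⟩ := IsAlgClosed.exists_pow_nat_eq (-c') (n := 2) two_pos
  refine ⟨s • p + r • p', s • p - r • p', ?_⟩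
  have hc' : c' = -(r ^ 2) := by rw [hr, neg_neg]
  rw [h1, h5, h8, zero_add, ← hs, hc']
  refine LinearMap.ext fun v => ?_
  rw [LinearMap.add_apply, LinearMap.smul_apply, LinearMap.smul_apply, SS_apply, SS_apply,
    SS_apply, map_add, map_sub, map_smul, map_smul, LinearMap.add_apply, LinearMap.sub_apply,
    LinearMap.smul_apply, LinearMap.smul_apply, smul_eq_mul, smul_eq_mul]
  module

end grp

variable {K : Type} [Field K] [CharZero K] {X : Type} [AddCommGroup X] [Module K X]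
  [FiniteDimensional K X] {Γ : Type} [Group Γ] {R : Representation K Γ X} {χ : Γ →* K}

/-- Square-zero operators of odd rank. -/
theorem coreProp_odd' [IsAlgClosed K] (ω : X →ₗ[K] X →ₗ[K] K)
    (hnd : ∀ u, (∀ v, ω u v = 0) → u = 0)
    (hωR : ∀ g u v, ω (R g u) (R g v) = χ g * ω u v) (hss : HasProj R)
    (hP : WeakHodgeGenerate R χ) {U : Submodule K X} (hU : SI R U)
    {x : Module.End K X} (hx : x ∈ lieT R χ) (hxx : ∀ u ∈ U, x (x u) = 0)
    (hodd : Odd (finrank K (U.map x))) : CoreProp R χ U := by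
  intro Δ hΔ hUΔ 𝔥 om halt hnd' hsim hbr hconj hsp hlie
  have hanti := alt_anti halt
  have hnd'' : ∀ u, (∀ v, om u v = 0) → u = 0 := fun u hu => hnd' u fun v => by
    rw [hanti, hu, neg_zero]
  obtain ⟨N, hN, hNx⟩ := hlie _ hx
  have hN2 : N * N = 0 := by
    refine LinearMap.ext fun u => Subtype.ext ?_
    rw [Module.End.mul_apply, hNx, hNx, hxx u u.2]
    rfl
  obtain ⟨e, he, hr⟩ := exists_rank_one_odd halt hnd'' Pool.Agent.W72.OT.Bound.main hbr hsp
    (fun W hW => irr_weak ω hnd hωR hss hP hU Δ hΔ hUΔ W (by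
      rintro Y ⟨x₀, hx₀, hxx₀, hYx⟩
      obtain ⟨Y', hY', hYx'⟩ := hlie x₀ hx₀
      have h1 : Y = Y' := LinearMap.ext fun u => Subtype.ext (by rw [hYx, hYx'])
      exact hW Y (h1 ▸ hY') (sq_res hYx _ hxx₀))) hN hN2 (by rw [rk_res hNx]; exact hodd)
  exact all_of_rank_one (resR R Δ U hUΔ) (χ.comp Δ.subtype) (sIrr_res hU Δ hΔ hUΔ) hbr hconj om
    halt hnd' hsim hsp he hr

end

end Pool.Agent.W522.J
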