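import Mathlib
import Pool.Agent.W522.J.J2
import Pool.Agent.W522.J.Defs
import Pool.Agent.W522.H.H3

/-!
# Operators of small rank in the Lie algebra: the representatives
-/

set_option linter.unusedSectionVars false

namespace Pool.Agent.W522.J

open Module Pool.Agent.H204R3.SP Pool.Agent.H204R3.GP Pool.Agent.W522.U
open Pool.Agent.W522.T (HasReflection AltDu TwistFree2 h0 irr_res alt_of_refl)
open Pool.Agent.W522.S (nil_of_elem)
open Pool.Agent.W522.H (ref_res f0_h0 all_hh)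
open Pool.Agent.W528.Odd (WeakHodgeGenerate CoreProp rk_res)

noncomputable section

variable {K : Type} [Field K] [CharZero K] {X : Type} [AddCommGroup X] [Module K X]
  [FiniteDimensional K X] {Γ : Type} [Group Γ] {R : Representation K Γ X} {χ : Γ →* K}
  [IsAlgClosed K]
  (ω : X →ₗ[K] X →ₗ[K] K) (hnd : ∀ u, (∀ v, ω u v = 0) → u = 0)
  (hωR : ∀ g u v, ω (R g u) (R g v) = χ g * ω u v) (hss : HasProj R)

include hnd hωR hss in
/-- Operators that kill the Tate forms preserve the subspaces `U` and are skew for their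
pairings. -/
theorem skew_on {U : Submodule K X} (hU : Pot R U) {D : Subgroup Γ} (hD : D.FiniteIndex)
    (B : X →ₗ[K] X →ₗ[K] K)
    (hB : ∀ g ∈ D, ∀ u ∈ U, ∀ v ∈ U, B (R g u) (R g v) = χ g * B u v) {x : Module.End K X}
    (hx : x ∈ lieT R χ) : (∀ u ∈ U, x u ∈ U) ∧ ∀ u ∈ U, ∀ v ∈ U, B (x u) v + B u (x v) = 0 := by
  obtain ⟨D1, hD1, h1⟩ := hU
  obtain ⟨q, hq1, hq2, hq3⟩ := hss (D1 ⊓ D) inferInstance U (fun g hg => h1 g hg.1)
  have hc := Pool.Agent.W839.OT.HTFam.comm R χ ω hnd hωR (D1 ⊓ D) inferInstance q hq3 x hx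
  have hst : ∀ u ∈ U, x u ∈ U := by
    intro u hu
    have h2 := hc u
    rw [hq2 u hu] at h2
    rw [h2]
    exact hq1 _
  have hT : IsTate2 R χ (B.compl₁₂ q q) := by
    refine ⟨D1 ⊓ D, inferInstance, fun g hg u v => ?_⟩
    change B (q (R g u)) (q (R g v)) = χ g * B (q u) (q v)
    rw [hq3 g hg, hq3 g hg]
    exact hB g hg.2 _ (hq1 u) _ (hq1 v)
  refine ⟨hst, fun u hu v hv => ?_⟩
  have h2 := lieT_bil R χ hT hx u v
  have h3 : B (q (x u)) (q v) + B (q u) (q (x v)) = 0 := h2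
  rwa [hq2 u hu, hq2 v hv, hq2 _ (hst u hu), hq2 _ (hst v hv)] at h3

include hnd hωR hss in
/-- Lines are not self-dual. -/
theorem lines_of_hodge_tate (hHT : HasHodgeTate R χ) : LinesNotSelfDual R χ := by
  rintro U hU h1 ⟨D, hD, B, ⟨u, hu, v, hv, huv⟩, hB⟩
  obtain ⟨x, hx, hxx⟩ := hHT
  obtain ⟨hst, hsk⟩ := skew_on ω hnd hωR hss hU.2.1 hD B hB hx
  obtain ⟨⟨w, hw⟩, hw0, hspan⟩ := finrank_eq_one_iff'.1 h1
  have hw0' : w ≠ 0 := fun h => hw0 (Subtype.ext h)
  obtain ⟨a, ha⟩ := hspan ⟨x w, hst w hw⟩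
  have ha' : a • w = x w := congrArg Subtype.val ha
  have h2 : ∀ y ∈ U, x y = a • y := by
    intro y hy
    obtain ⟨c, hc⟩ := hspan ⟨y, hy⟩
    have hc' : c • w = y := congrArg Subtype.val hc
    rw [← hc', map_smul, ← ha', smul_comm]
  have h3 : a * a = 1 / 4 := by
    have h4 := congrArg (fun F : Module.End K X => F w) hxx
    change x (x w) = (1 / 4 : K) • w at h4
    rw [← ha', map_smul, ← ha', smul_smul] at h4
    exact smul_left_injective K hw0' h4
  have h4 := hsk u hu v hv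
  rw [h2 u hu, h2 v hv, map_smul, map_smul, LinearMap.smul_apply, smul_eq_mul] at h4
  have h5 : 2 * a * B u v = 0 := by linear_combination h4
  rcases mul_eq_zero.1 h5 with h6 | h6
  · rcases mul_eq_zero.1 h6 with h7 | h7
    · exact two_ne_zero h7
    · rw [h7, mul_zero] at h3
      norm_num at h3
  · exact huv h6

include hnd hωR hss in
/-- Alternation of the self-pairings. -/
theorem alt_small {U : Submodule K X} (hU : SI R U) (h3 : 3 ≤ finrank K U) {x : Module.End K X}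
    (hx : x ∈ lieT R χ) {c : K} (hr : finrank K (U.map (x - c • (1 : Module.End K X))) = 1)
    {D : Subgroup Γ} (hD : D.FiniteIndex) (B : X →ₗ[K] X →ₗ[K] K)
    (hB : ∀ g ∈ D, ∀ u ∈ U, ∀ v ∈ U, B (R g u) (R g v) = χ g * B u v) : ∀ u ∈ U, B u u = 0 := by
  obtain ⟨hst, hsk⟩ := skew_on ω hnd hωR hss hU.2.1 hD B hB hx
  obtain ⟨D1, hD1, h1⟩ := hU.2.1
  have hΔ : (D1 ⊓ D).FiniteIndex := inferInstance
  have hUΔ : ∀ g ∈ D1 ⊓ D, ∀ u ∈ U, R g u ∈ U := fun g hg => h1 g hg.1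
  let Y : Module.End K U := x.restrict hst
  have hYc : ∀ u : U, (((Y - c • (1 : Module.End K U)) u : U) : X) =
      (x - c • (1 : Module.End K X)) u := fun _ => rfl
  have hr' : finrank K (LinearMap.range (Y - c • (1 : Module.End K U))) = 1 := by
    rw [← hr]
    exact rk_res hYc
  obtain ⟨v, ξ, hv, hξ, hY⟩ := rank_one_form hr'
  intro u hu
  refine alt_of_rank_one (irr_res hU hΔ hUΔ) h3 (B.compl₁₂ U.subtype U.subtype)
    (ψ := fun g => χ g.1) (fun g u v => hB g.1 g.2.2 u u.2 v v.2) hv hξ (c := c)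
    (fun a b => ?_) ⟨u, hu⟩
  rw [← hY, ← hY]
  exact hsk a a.2 b b.2

variable (hP : WeakHodgeGenerate R χ)
  (hR1 : ∀ U, SI R U → 2 ≤ finrank K U → HasReflection R U ∨
    (3 ≤ finrank K U ∧ HasSmallOperator R χ U))
  (hR2 : LinesNotSelfDual R χ) (hH : TwistFree2 R χ)

include hnd hωR hss hP hR1 hR2 hH in
theorem family' {s : ℕ} (W : Fin s → Submodule K X) (hW : ∀ i, SI R (W i))
    (hWW : ∀ i j, Tw R (fun _ => 1) (W i) (W j) → i = j)
    (st : Fin s → Fin s) (hst : ∀ i, st (st i) = i) (hDu : ∀ i, Du R χ (W i) (W (st i)))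
    (hDu' : ∀ i j, Du R χ (W i) (W j) → j = st i) :
    ∃ (Δ : Subgroup Γ) (_ : Δ.FiniteIndex) (hWΔ : ∀ i, ∀ g ∈ Δ, ∀ u ∈ W i, R g u ∈ W i)
      (B : Fin s → X →ₗ[K] X →ₗ[K] K),
      (∀ i, ∀ u ∈ W i, (∀ v ∈ W (st i), B i u v = 0) → u = 0) ∧
      (∀ i, ∀ v ∈ W (st i), (∀ u ∈ W i, B i u v = 0) → v = 0) ∧
      (∀ i, ∀ g ∈ Δ, ∀ u ∈ W i, ∀ v ∈ W (st i), B i (R g u) (R g v) = χ g * B i u v) ∧
      ∀ D : ∀ i, Module.End K (W i),
        (∀ i (u : W i) (v : W (st i)), B i (D i u) v + B i u (D (st i) v) = 0) →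
        (∀ i, LinearMap.trace K (W i) (D i) = 0) →
        D ∈ hh (fun i => resR R Δ (W i) (hWΔ i)) (χ.comp Δ.subtype) := by
  classical
  choose D hDfi hDs using fun i => (hW i).2.1
  have hpos : ∀ i, 0 < finrank K (W i) := by
    intro i
    rw [Nat.pos_iff_ne_zero, ne_eq, Submodule.finrank_eq_zero]
    exact (hW i).1
  have hDuA : ∀ i, ∃ D' : Subgroup Γ, D'.FiniteIndex ∧ ∃ B : X →ₗ[K] X →ₗ[K] K,
      (∃ u ∈ W i, ∃ v ∈ W (st i), B u v ≠ 0) ∧
      (∀ g ∈ D', ∀ u ∈ W i, ∀ v ∈ W (st i), B (R g u) (R g v) = χ g * B u v) ∧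
      (st i = i → ∀ u ∈ W i, B u u = 0) := by
    intro i
    obtain ⟨D', hD', B, hB0, hB⟩ := hDu i
    by_cases hi : st i = i
    · rcases (show finrank K (W i) = 1 ∨ 2 ≤ finrank K (W i) by have := hpos i; omega)
        with h1 | h1
      · rw [hi] at hB hB0
        exact absurd ⟨D', hD', B, hB0, hB⟩ (hR2 _ (hW i) h1)
      · rcases hR1 _ (hW i) h1 with hr | ⟨h3, x, hx, ⟨c, hr⟩ | ⟨⟨D2, hD2, B2, hB20, hB2a, hB2⟩, -⟩⟩
        · refine ⟨D', hD', B, hB0, hB, fun _ => ?_⟩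
          rw [hi] at hB hB0
          exact alt_of_refl (hW i) h1 hr hD' B hB
        · refine ⟨D', hD', B, hB0, hB, fun _ => ?_⟩
          rw [hi] at hB hB0
          exact alt_small ω hnd hωR hss (hW i) h3 hx hr hD' B hB
        · rw [hi]
          exact ⟨D2, hD2, B2, hB20, hB2, fun _ => hB2a⟩
    · exact ⟨D', hD', B, hB0, hB, fun h => absurd h hi⟩
  choose D' hD' B hB0 hB hBA using hDuA
  let Δ : Subgroup Γ := ⨅ i, D i ⊓ D' i
  have hΔ : Δ.FiniteIndex := Subgroup.finiteIndex_iInf (fun i => inferInstance)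
  have hm : ∀ g ∈ Δ, ∀ i, g ∈ D i ∧ g ∈ D' i := fun g hg i => Subgroup.mem_iInf.1 hg i
  have hWΔ : ∀ i, ∀ g ∈ Δ, ∀ u ∈ W i, R g u ∈ W i := fun i g hg u hu => hDs i g (hm g hg i).1 u hu
  have hBalt : ∀ i, st i = i → ∀ u ∈ W i, B i u u = 0 := hBA
  have hBl : ∀ i j, j = st i → ∀ u ∈ W i, (∀ v ∈ W j, B i u v = 0) → u = 0 := by
    rintro i _ rfl
    exact du_left (hW i) (hW _).2.1 (hD' i) (hB0 i) (hB i)
  have hBr : ∀ i j, j = st i → ∀ v ∈ W j, (∀ u ∈ W i, B i u v = 0) → v = 0 := by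
    rintro i _ rfl
    exact du_right (hW i).2.1 (hW _) (hD' i) (hB0 i) (hB i)
  have hBs : ∀ i j, j = st i → ∀ g ∈ Δ, ∀ u ∈ W i, ∀ v ∈ W j,
      B i (R g u) (R g v) = χ g * B i u v := by
    rintro i _ rfl g hg
    exact hB i g (hm g hg i).2
  let r : ∀ i, Representation K Δ (W i) := fun i => resR R Δ (W i) (hWΔ i)
  have hr : ∀ (i : Fin s) (g : Δ) (u : W i), ((r i g u : W i) : X) = R g.1 u := fun _ _ _ => rfl
  -- the conditions
  have hsim : ∀ (g : Δ) u v, pf W st B (piRep r g u) (piRep r g v) =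
      (χ.comp Δ.subtype) g * pf W st B u v := by
    intro g u v
    rw [pf_apply, pf_apply, Finset.mul_sum]
    refine Finset.sum_congr rfl fun i _ => ?_
    rw [Finset.mul_sum]
    refine Finset.sum_congr rfl fun j _ => ?_
    rw [piRep_apply, piRep_apply, hr, hr]
    change _ = χ g.1 * _
    unfold cf
    by_cases h : j = st i
    · rw [if_pos h]
      rcases lt_trichotomy i j with h1 | h1 | h1
      · rw [if_pos h1]
        exact hBs i j h g.1 g.2 _ (u i).2 _ (v j).2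
      · rw [if_neg (not_lt.2 h1.ge), if_neg (not_lt.2 h1.le)]
        exact hBs i j h g.1 g.2 _ (u i).2 _ (v j).2
      · rw [if_neg (not_lt.2 h1.le), if_pos h1, LinearMap.neg_apply, LinearMap.neg_apply,
          LinearMap.neg_apply, LinearMap.neg_apply, LinearMap.flip_apply, LinearMap.flip_apply,
          hBs j i (by rw [h, hst]) g.1 g.2 _ (v j).2 _ (u i).2, mul_neg]
    · rw [if_neg h, LinearMap.zero_apply, LinearMap.zero_apply, LinearMap.zero_apply,
        LinearMap.zero_apply, mul_zero]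
  have hor : ∀ i j, j ≠ st i → ∀ (u : W i) (v : W j),
      pf W st B (Pi.single i u) (Pi.single j v) = 0 := by
    intro i j hij u v
    rw [pf_single]
    unfold cf
    rw [if_neg hij, LinearMap.zero_apply, LinearMap.zero_apply]
  have htw : ∀ i j, i ≠ j → 2 ≤ finrank K (W i) → 2 ≤ finrank K (W j) →
      (j = st i → 2 < finrank K (W i)) →
      ∀ (T : W i →ₗ[K] W j) (ψ : Δ → K), (∀ g u, T (r i g u) = ψ g • r j g (T u)) → T = 0 := by
    intro i j hij hi hj h2f T ψ hT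
    by_contra hT0
    obtain ⟨p, hp⟩ := exists_pr (W i)
    let ψ' : Γ → K := fun g => if h : g ∈ Δ then ψ ⟨g, h⟩ else 1
    have htw : Tw R ψ' (W i) (W j) := by
      refine ⟨Δ, hΔ, (W j).subtype.comp (T.comp p), fun u _ => SetLike.coe_mem _, ?_, ?_⟩
      · by_contra hcon
        push Not at hcon
        apply hT0
        ext u
        have h1 := hcon u u.2
        rw [LinearMap.comp_apply, LinearMap.comp_apply, hp] at h1
        exact h1
      · intro g hg u hu
        have h1 := hT ⟨g, hg⟩ ⟨u, hu⟩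
        have h2 : p (R g u) = r i ⟨g, hg⟩ ⟨u, hu⟩ := hp (r i ⟨g, hg⟩ ⟨u, hu⟩)
        have h3 : p u = ⟨u, hu⟩ := hp ⟨u, hu⟩
        have h4 : ψ' g = ψ ⟨g, hg⟩ := dif_pos hg
        rw [LinearMap.comp_apply, LinearMap.comp_apply, LinearMap.comp_apply,
          LinearMap.comp_apply, h2, h3, h1, h4]
        rfl
    have h1 : Tw R (fun _ => 1) (W i) (W j) ∨ (finrank K (W i) = 2 ∧ Du R χ (W i) (W j)) := by
      by_cases h2 : Du R χ (W i) (W i)
      · by_cases h3 : Du R χ (W j) (W j)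
        · exact Or.inl (sp_twist (hW i) (hW j) h2 h3 htw)
        · rcases hH _ _ (hW j) (hW i) hj h3 _ (htw.symm (hW i) (hW j)) with h4 | ⟨h4, h5⟩
          · exact Or.inl (h4.symm1 (hW j) (hW i))
          · refine Or.inr ⟨?_, h5.symm⟩
            have h6 := hDu' _ _ h5.symm
            obtain ⟨Δ5, hΔ5, B5, hB50, hB5⟩ := h5
            rw [← h4]
            exact (du_bij (hW j) (hW i) hΔ5 B5 hB50 hB5).1.symm
      · exact hH _ _ (hW i) (hW j) hi h2 _ htw
    rcases h1 with h1 | ⟨h1, h2⟩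
    · exact hij (hWW _ _ h1)
    · have h3 := h2f (hDu' _ _ h2)
      omega
  have hirr : ∀ i, Irr (r i) := fun i => irr_res (hW i) hΔ (hWΔ i)
  have hnil : ∀ i, 2 ≤ finrank K (W i) → ∃ Z ∈ h0 r (χ.comp Δ.subtype),
      ∃ (u : W i) (φ : Dual K (W i)), u ≠ 0 ∧ φ ≠ 0 ∧ φ u = 0 ∧ Z i = φ.smulRight u := by
    intro i hi
    rcases hR1 _ (hW i) hi with hr | ⟨h3, x, hx, hsm⟩
    · obtain ⟨Z, hZ, h2⟩ := nil_of_elem (hirr i) hi (Or.inl (ref_res hΔ (hWΔ i) hr))
      exact ⟨Z, f0_h0 hZ, h2⟩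
    have hfam := Pool.Agent.W839.OT.HTFam.main K X Γ R χ ω hnd hωR hss s W hW hWW Δ hΔ hWΔ
    obtain ⟨Y, hY, hYx⟩ := hfam x hx
    rcases hsm with ⟨c, hr⟩ | ⟨hA, hsm⟩
    · have hYc : ∀ u : W i, (((Y i - c • (1 : Module.End K (W i))) u : W i) : X) =
          (x - c • (1 : Module.End K X)) u := by
        intro u
        rw [LinearMap.sub_apply, Submodule.coe_sub, hYx]
        rfl
      have hr' : finrank K (LinearMap.range (Y i - c • (1 : Module.End K (W i)))) = 1 := by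
        rw [← hr]
        exact rk_res hYc
      obtain ⟨v, ξ, hv, hξ, hYi⟩ := rank_one_form hr'
      exact nil_of_rank_one (hirr i) hi hY hv hξ hYi
    have hsi : st i = i := by
      obtain ⟨D2, hD2, B2, hB20, -, hB2⟩ := hA
      exact (hDu' _ _ ⟨D2, hD2, B2, hB20, hB2⟩).symm
    let om : W i →ₗ[K] W i →ₗ[K] K := (B i).compl₁₂ (W i).subtype (W i).subtype
    have hom : ∀ u v : W i, om u v = B i u v := fun _ _ => rfl
    have homa : ∀ u, om u u = 0 := fun u => hBalt i hsi u u.2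
    have homl : ∀ u, (∀ v, om u v = 0) → u = 0 := fun u hu =>
      Subtype.ext (hBl i i hsi.symm u u.2 fun v hv => hu ⟨v, hv⟩)
    have homr : ∀ u, (∀ v, om v u = 0) → u = 0 := fun u hu =>
      Subtype.ext (hBr i i hsi.symm u u.2 fun v hv => hu ⟨v, hv⟩)
    have homs : ∀ (g : Δ) u v, om (r i g u) (r i g v) = (χ.comp Δ.subtype) g * om u v :=
      fun g u v => hBs i i hsi.symm g.1 g.2 u u.2 v v.2
    have homk : ∀ Z ∈ hh r (χ.comp Δ.subtype), ∀ u v, om (Z i u) v + om u (Z i v) = 0 := by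
      intro Z hZ u v
      have h4 : IsTate2 (piRep r) (χ.comp Δ.subtype)
          (om.compl₁₂ (LinearMap.proj i) (LinearMap.proj i)) :=
        ⟨⊤, inferInstance, fun g _ u v => homs g (u i) (v i)⟩
      have h5 := lieT_bil _ _ h4 ((mem_hh _ _ Z).1 hZ) (Pi.single i u) (Pi.single i v)
      rw [blk_single, blk_single] at h5
      simpa using h5
    have hbr : ∀ Z ∈ (hh r (χ.comp Δ.subtype)).map (LinearMap.proj i),
        ∀ Z' ∈ (hh r (χ.comp Δ.subtype)).map (LinearMap.proj i), Z * Z' - Z' * Z ∈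
          (hh r (χ.comp Δ.subtype)).map (LinearMap.proj i) := by
      rintro _ ⟨X', hX', rfl⟩ _ ⟨Y', hY', rfl⟩
      exact ⟨brk X' Y', (lieFam_hh r (χ.comp Δ.subtype)).br X' hX' Y' hY', rfl⟩
    have hcj : ∀ g : Δ, ∀ Z ∈ (hh r (χ.comp Δ.subtype)).map (LinearMap.proj i),
        r i g * Z * r i g⁻¹ ∈ (hh r (χ.comp Δ.subtype)).map (LinearMap.proj i) := by
      rintro g _ ⟨X', hX', rfl⟩
      exact ⟨_, (lieFam_hh r (χ.comp Δ.subtype)).conj g X' hX', rfl⟩
    have hspm : ∀ Z ∈ (hh r (χ.comp Δ.subtype)).map (LinearMap.proj i), ∀ u w,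
        om (Z u) w + om u (Z w) = 0 := by
      rintro _ ⟨X', hX', rfl⟩ u w
      exact homk X' hX' u w
    rcases hsm with h2 | ⟨hxx, hodd⟩
    · -- rank two
      obtain ⟨a, b, hab⟩ := exists_SS' om homa homr (homk Y hY) (by
        have h4 : finrank K (LinearMap.range (Y i)) = finrank K ((W i).map x) :=
          rk_res (hYx i)
        omega)
      by_cases h0 : om a b = 0
      · refine nil_of_all hi om homl homa (all_of_nil_two (r i) (χ.comp Δ.subtype) om
          (Pool.Agent.W528.Odd.sIrr_res (hW i) Δ hΔ (hWΔ i)) hbr hcj homa homr homs hspm h0 ?_ ?_)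
        · rw [← hab]
          intro h5
          have h4 : finrank K (LinearMap.range (Y i)) = finrank K ((W i).map x) :=
            rk_res (hYx i)
          rw [h5, h2, LinearMap.range_zero, finrank_bot] at h4
          omega
        · rw [← hab]
          exact ⟨Y, hY, rfl⟩
      · exact nil_of_rank_two_ss (hirr i) hi om homl homa homs homk hY h0 hab
    · -- odd rank
      exact nil_of_all hi om homl homa (coreProp_odd' ω hnd hωR hss hP (hW i) hx hxx hodd Δ hΔ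
        (hWΔ i) _ om homa homr homs hbr hcj hspm (fun x₀ hx₀ => by
          obtain ⟨Y', hY', hY'x⟩ := hfam x₀ hx₀
          exact ⟨Y' i, ⟨Y', hY', rfl⟩, fun u => hY'x i u⟩))
  refine ⟨Δ, hΔ, hWΔ, B, fun i => hBl i _ rfl, fun i => hBr i _ rfl, fun i => hBs i _ rfl,
    fun D hD htr => ?_⟩
  refine all_hh (pf W st B) (pf_alt W st B hst hBalt) (pf_nondeg W st B hst hBl hBr) hsim st hst
    hor htw (fun i _ => hirr i) hnil (fun i u v => ?_) htr
  rw [pf_single, pf_single]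
  unfold cf
  rw [if_pos rfl]
  rcases lt_trichotomy i (st i) with h1 | h1 | h1
  · rw [if_pos h1]
    exact hD i u v
  · rw [if_neg (not_lt.2 h1.ge), if_neg (not_lt.2 h1.le)]
    exact hD i u v
  · rw [if_neg (not_lt.2 h1.le), if_pos h1, LinearMap.neg_apply, LinearMap.neg_apply,
      LinearMap.neg_apply, LinearMap.neg_apply, LinearMap.flip_apply, LinearMap.flip_apply]
    have h2 : ∀ (j : Fin s) (hj : j = st (st i)) (u : W j), B (st i) (D (st i) v) u +
        B (st i) v (D j u) = 0 := by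
      rintro _ rfl u
      exact hD (st i) v u
    have h3 := h2 i (hst i).symm u
    linear_combination -h3

end

end Pool.Agent.W522.J
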