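import Mathlib
import Pool.Agent.W522.J.J3
import Pool.Agent.W522.H.H5

/-!
# The Mumford-Tate conjecture from operators of small rank
-/

set_option linter.unusedSectionVars false

namespace Pool.Agent.W522.J

open Module Pool.Agent.H204R3.SP Pool.Agent.H204R3.GP Pool.Agent.W522.U
open Pool.Agent.W516.FT (AlmostEquivariant)
open Pool.Agent.W522.T (TwistFree2)
open Pool.Agent.W522.H (trace_dual skew_all)

noncomputable section

section dec

variable {K : Type*} [Field K] [CharZero K] {X : Type*} [AddCommGroup X] [Module K X]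
  [FiniteDimensional K X]
  {Γ : Type*} [Group Γ]

/-- The families of the representatives. -/
def Fam (R : Representation K Γ X) (χ : Γ →* K) : Prop :=
  ∀ (s : ℕ) (W : Fin s → Submodule K X), (∀ i, SI R (W i)) →
    (∀ i j, Tw R (fun _ => 1) (W i) (W j) → i = j) →
    ∀ (st : Fin s → Fin s), (∀ i, st (st i) = i) → (∀ i, Du R χ (W i) (W (st i))) →
    (∀ i j, Du R χ (W i) (W j) → j = st i) →
    ∃ (Δ : Subgroup Γ) (_ : Δ.FiniteIndex) (hWΔ : ∀ i, ∀ g ∈ Δ, ∀ u ∈ W i, R g u ∈ W i)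
      (B : Fin s → X →ₗ[K] X →ₗ[K] K),
      (∀ i, ∀ u ∈ W i, (∀ v ∈ W (st i), B i u v = 0) → u = 0) ∧
      (∀ i, ∀ v ∈ W (st i), (∀ u ∈ W i, B i u v = 0) → v = 0) ∧
      (∀ i, ∀ g ∈ Δ, ∀ u ∈ W i, ∀ v ∈ W (st i), B i (R g u) (R g v) = χ g * B i u v) ∧
      ∀ D : ∀ i, Module.End K (W i),
        (∀ i (u : W i) (v : W (st i)), B i (D i u) v + B i u (D (st i) v) = 0) →
        (∀ i, LinearMap.trace K (W i) (D i) = 0) →
        D ∈ hh (fun i => resR R Δ (W i) (hWΔ i)) (χ.comp Δ.subtype)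

variable {R : Representation K Γ X} {χ : Γ →* K} [IsAlgClosed K]
  (ω : X →ₗ[K] X →ₗ[K] K) (hnd : ∀ u, (∀ v, ω u v = 0) → u = 0)
  (hωR : ∀ g u v, ω (R g u) (R g v) = χ g * ω u v) (hfm : Fam R χ)

include hnd hωR hfm in
/-- An infinitesimal isometry that commutes with the almost equivariant endomorphisms is the sum of
an element of the Lie algebra that kills all Tate forms and of a central almost equivariant
endomorphism. -/
theorem decompose' (hss : HasProj R) (Z : Module.End K X)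
    (hZs : ∀ u v, ω (Z u) v + ω u (Z v) = 0)
    (hZc : ∀ Q, AlmostEquivariant R Q → ∀ v, Z (Q v) = Q (Z v)) :
    ∃ C : Module.End K X, AlmostEquivariant R C ∧
      (∀ Q, AlmostEquivariant R Q → ∀ v, C (Q v) = Q (C v)) ∧ Z - C ∈ lieT R χ := by
  classical
  obtain ⟨s, W, hW, hWW, hall⟩ := exists_reps hss
  obtain ⟨st, hst, hDu, hDu'⟩ := exists_st hss ω hnd hωR W hW hWW hall
  obtain ⟨Δ, hΔ, hWΔ, B, hBl, hBr, hBs, hfam⟩ := hfm s W hW hWW st hst hDu hDu'
  obtain ⟨n, f, T, hfT⟩ := Submodule.mem_span_set'.1 (decomp hss W hW hall)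
  choose i p ι D hD hp hι hT using fun l => (T l).2
  have hx : ∀ x : X, ∑ l, f l • ι l (p l x) = x := by
    intro x
    have h2 := congrArg (fun F : Module.End K X => F x) hfT
    simp only [LinearMap.sum_apply, LinearMap.smul_apply, Module.End.one_apply] at h2
    conv_rhs => rw [← h2]
    refine Finset.sum_congr rfl fun l _ => ?_
    rw [hT]
    rfl
  have hDD : (⨅ l, D l).FiniteIndex := Subgroup.finiteIndex_iInf hD
  -- projections onto the representatives
  choose P hP1 hP2 hP3 using fun j => hss Δ hΔ (W j) (hWΔ j)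
  have hPa : ∀ j, AlmostEquivariant R (P j) := fun j => ⟨Δ, hΔ, hP3 j⟩
  have hZW : ∀ j, ∀ u ∈ W j, Z u ∈ W j := by
    intro j u hu
    rw [← hP2 j u hu, hZc _ (hPa j)]
    exact hP1 j _
  let z : ∀ j, Module.End K (W j) := fun j => Z.restrict (hZW j)
  have hz : ∀ j (u : W j), ((z j u : W j) : X) = Z u := fun _ _ => rfl
  have hpos : ∀ j, (finrank K (W j) : K) ≠ 0 := by
    intro j
    rw [Nat.cast_ne_zero, ne_eq, Submodule.finrank_eq_zero]
    exact (hW j).1
  let c : Fin s → K := fun j => LinearMap.trace K (W j) (z j) / finrank K (W j)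
  let d : ∀ j, Module.End K (W j) := fun j => z j - c j • 1
  have hd : ∀ j (u : W j), d j u = z j u - c j • u := fun _ _ => rfl
  -- the maps commute with `Z`
  have hZι : ∀ l (w : W (i l)), Z (ι l w) = ι l (z (i l) w) := by
    intro l w
    let E : Module.End K X := (ι l).comp ((P (i l)).codRestrict (W (i l)) (hP1 (i l)))
    have hE : ∀ x, E x = ι l ⟨P (i l) x, hP1 (i l) x⟩ := fun _ => rfl
    have hEa : AlmostEquivariant R E := by
      refine ⟨Δ ⊓ D l, inferInstance, fun g hg x => ?_⟩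
      rw [hE, hE]
      exact hι l g hg.2 _ _ (hP3 (i l) g hg.1 x)
    have h1 := hZc E hEa w
    have h2 : ∀ u : W (i l), E u = ι l u := by
      intro u
      rw [hE]
      congr 1
      exact Subtype.ext (hP2 (i l) u u.2)
    rw [h2] at h1
    rw [h1]
    exact h2 (z (i l) w)
  have hZp : ∀ l x, p l (Z x) = z (i l) (p l x) := by
    intro l x
    have hEa : AlmostEquivariant R ((W (i l)).subtype.comp (p l)) :=
      ⟨D l, hD l, fun g hg x => hp l g hg x⟩
    exact Subtype.ext (hZc _ hEa x).symm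
  -- orthogonality of the types
  have horth : ∀ (Q : Module.End K X), AlmostEquivariant R Q → ∀ l l', i l ≠ i l' →
      ∀ w : W (i l), p l' (Q (ι l w)) = 0 := by
    intro Q hQ l l' hll w
    obtain ⟨ΔQ, hΔQ, hQ⟩ := hQ
    by_contra h0
    apply hll
    apply hWW
    obtain ⟨pr, hpr⟩ := exists_pr (W (i l))
    refine ⟨(Δ ⊓ ΔQ) ⊓ (D l ⊓ D l'), inferInstance,
      (W (i l')).subtype.comp ((p l').comp (Q.comp ((ι l).comp pr))), fun u _ => SetLike.coe_mem _,
      ⟨w, w.2, ?_⟩, fun g hg u hu => ?_⟩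
    · intro h1
      apply h0
      apply Subtype.ext
      have h2 : ((p l' (Q (ι l (pr w))) : W (i l')) : X) = 0 := h1
      rw [hpr] at h2
      exact h2
    · change ((p l' (Q (ι l (pr (R g u)))) : W (i l')) : X) =
        (1 : K) • R g ((p l' (Q (ι l (pr u))) : W (i l')) : X)
      have h1 : pr u = ⟨u, hu⟩ := hpr ⟨u, hu⟩
      have h2 : pr (R g u) = ⟨R g u, hWΔ _ g hg.1.1 u hu⟩ := hpr ⟨R g u, hWΔ _ g hg.1.1 u hu⟩
      rw [one_smul, h1, h2, hι l g hg.2.1 ⟨u, hu⟩ ⟨R g u, _⟩ rfl, hQ g hg.1.2, hp l' g hg.2.2]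
  -- the central endomorphism
  let C : Module.End K X := ∑ l, (f l * c (i l)) • (ι l).comp (p l)
  have hC : ∀ x, C x = ∑ l, (f l * c (i l)) • ι l (p l x) := by
    intro x
    change (∑ l, (f l * c (i l)) • (ι l).comp (p l)) x = _
    rw [LinearMap.sum_apply]
    rfl
  have hCQ : ∀ (Q : Module.End K X), AlmostEquivariant R Q → ∀ l (w : W (i l)),
      C (Q (ι l w)) = c (i l) • Q (ι l w) := by
    intro Q hQ l w
    rw [hC]
    conv_rhs => rw [← hx (Q (ι l w))]
    rw [Finset.smul_sum]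
    refine Finset.sum_congr rfl fun l' _ => ?_
    by_cases h : i l = i l'
    · have h' : c (i l) = c (i l') := congrArg c h
      rw [h', smul_smul, mul_comm]
    · rw [horth Q hQ l l' h w, map_zero, smul_zero, smul_zero, smul_zero]
  have hone : AlmostEquivariant R (1 : Module.End K X) := ⟨⊤, inferInstance, fun _ _ _ => rfl⟩
  have hCι : ∀ l (w : W (i l)), C (ι l w) = c (i l) • ι l w := fun l w => hCQ 1 hone l w
  refine ⟨C, ⟨⨅ l, D l, hDD, fun g hg x => ?_⟩, fun Q hQ x => ?_, ?_⟩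
  · rw [hC, hC, map_sum]
    refine Finset.sum_congr rfl fun l _ => ?_
    rw [map_smul]
    congr 1
    exact hι l g (Subgroup.mem_iInf.1 hg l) _ _ (hp l g (Subgroup.mem_iInf.1 hg l) x)
  · conv_lhs => rw [← hx x]
    rw [map_sum, map_sum, hC, map_sum]
    refine Finset.sum_congr rfl fun l _ => ?_
    rw [map_smul, map_smul, hCQ Q hQ, map_smul, smul_smul]
  · -- the family
    have hBd : ∀ j (u : W j) (v : W (st j)), B j (z j u) v + B j u (z (st j) v) = 0 := by
      intro j u v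
      let b : X →ₗ[K] X →ₗ[K] K := (B j).compl₁₂ (P j) (P (st j))
      have hb : ∀ x y, b x y = B j (P j x) (P (st j) y) := fun _ _ => rfl
      have h1 := skew_all ω hnd hωR Z hZs hZc b Δ hΔ (fun g hg x y => by
        rw [hb, hb, hP3 j g hg, hP3 (st j) g hg]
        exact hBs j g hg _ (hP1 j x) _ (hP1 (st j) y)) u v
      rw [hb, hb, hP2 j _ (hZW j u u.2), hP2 j u u.2, hP2 _ _ (hZW _ v v.2), hP2 _ v v.2] at h1
      exact h1
    have htr : ∀ j, LinearMap.trace K (W (st j)) (z (st j)) = -LinearMap.trace K (W j) (z j) :=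
      fun j => trace_dual ((B j).compl₁₂ (W j).subtype (W (st j)).subtype)
        (fun u hu => Subtype.ext (hBl j u u.2 fun v hv => hu ⟨v, hv⟩))
        (fun v hv => Subtype.ext (hBr j v v.2 fun u hu => hv ⟨u, hu⟩)) (z j) (z (st j))
        (fun u v => hBd j u v)
    have hfr : ∀ j, finrank K (W (st j)) = finrank K (W j) := fun j =>
      (du_bij (hW j) (hW (st j)) hΔ (B j) (by
        obtain ⟨u, hu, hu0⟩ := Submodule.exists_mem_ne_zero_of_ne_bot (hW j).1
        by_contra hcon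
        push Not at hcon
        exact hu0 (hBl j u hu fun v hv => hcon u hu v hv)) (hBs j)).1.symm
    have hcs : ∀ j, c (st j) = -c j := by
      intro j
      change LinearMap.trace K (W (st j)) (z (st j)) / finrank K (W (st j)) = _
      rw [htr, hfr, neg_div]
    have hmem : d ∈ hh (fun j => resR R Δ (W j) (hWΔ j)) (χ.comp Δ.subtype) := by
      refine hfam d (fun j u v => ?_) (fun j => ?_)
      · have h1 := hBd j u v
        rw [hd, hd, Submodule.coe_sub, Submodule.coe_sub, Submodule.coe_smul, Submodule.coe_smul,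
          map_sub, map_sub, map_smul, map_smul, LinearMap.sub_apply, LinearMap.smul_apply,
          smul_eq_mul, smul_eq_mul, hcs]
        linear_combination h1
      · change LinearMap.trace K (W j) (z j - c j • 1) = 0
        rw [map_sub, map_smul, LinearMap.trace_one, smul_eq_mul]
        change _ - LinearMap.trace K (W j) (z j) / finrank K (W j) * _ = 0
        rw [div_mul_cancel₀ _ (hpos j), sub_self]
    rw [mem_hh] at hmem
    intro m φ hφ v
    obtain ⟨Δφ, hΔφ, hφ⟩ := hφ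
    have hZC : ∀ x, (Z - C) x = ∑ l, f l • ι l (d (i l) (p l x)) := by
      intro x
      conv_lhs => rw [← hx x]
      rw [map_sum]
      refine Finset.sum_congr rfl fun l _ => ?_
      rw [map_smul, LinearMap.sub_apply, hZι, hCι, hd, map_sub, map_smul]
    let r := fun j => resR R Δ (W j) (hWΔ j)
    let φL : (Fin m × Fin 2 → Fin n) → MultilinearMap K (fun _ : Fin m × Fin 2 => ∀ j, W j) K :=
      fun L => φ.compLinearMap (fun k => (ι (L k)).comp (LinearMap.proj (i (L k))))
    have hφL : ∀ L, IsTate (piRep r) (χ.comp Δ.subtype) m (φL L) := by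
      intro L
      refine ⟨(Δφ ⊓ ⨅ l, D l).subgroupOf Δ, inferInstance, fun g hg w => ?_⟩
      rw [Subgroup.mem_subgroupOf] at hg
      change φ (fun k => ι (L k) (piRep r g (w k) (i (L k)))) = χ g.1 ^ m * φ (fun k => _)
      rw [← hφ g.1 hg.1]
      congr 1
      funext k
      exact hι (L k) g.1 (Subgroup.mem_iInf.1 hg.2 _) _ _ rfl
    let q : (Fin m × Fin 2 → Fin n) → (Fin m × Fin 2) → ∀ j, W j := fun L k =>
      Pi.single (i (L k)) (p (L k) (v k))
    have key : ∀ k0, φ (Function.update v k0 ((Z - C) (v k0))) =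
        ∑ L : Fin m × Fin 2 → Fin n, (∏ k, f (L k)) *
          φL L (Function.update (q L) k0 (blk d (q L k0))) := by
      intro k0
      have h1 : Function.update v k0 ((Z - C) (v k0)) = fun k => ∑ l, f l •
          (if k = k0 then ι l (d (i l) (p l (v k))) else ι l (p l (v k))) := by
        funext k
        by_cases hk : k = k0
        · subst hk
          rw [Function.update_self, hZC]
          refine Finset.sum_congr rfl fun l _ => ?_
          rw [if_pos rfl]
        · rw [Function.update_of_ne hk]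
          conv_lhs => rw [← hx (v k)]
          refine Finset.sum_congr rfl fun l _ => ?_
          rw [if_neg hk]
      rw [h1, MultilinearMap.map_sum]
      refine Finset.sum_congr rfl fun L _ => ?_
      rw [MultilinearMap.map_smul_univ, smul_eq_mul]
      congr 1
      change _ = φ (fun k => ι (L k) ((Function.update (q L) k0 (blk d (q L k0)) k) (i (L k))))
      congr 1
      funext k
      by_cases hk : k = k0
      · subst hk
        rw [if_pos rfl, Function.update_self, blk_apply]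
        change _ = ι (L k) (d (i (L k)) ((Pi.single (i (L k)) (p (L k) (v k)) : ∀ j, W j)
          (i (L k))))
        rw [Pi.single_eq_same]
      · rw [if_neg hk, Function.update_of_ne hk]
        change _ = ι (L k) ((Pi.single (i (L k)) (p (L k) (v k)) : ∀ j, W j) (i (L k)))
        rw [Pi.single_eq_same]
    rw [Finset.sum_congr rfl (fun k0 _ => key k0), Finset.sum_comm]
    refine Finset.sum_eq_zero fun L _ => ?_
    rw [← Finset.mul_sum, hmem m (φL L) (hφL L) (q L), mul_zero]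

end dec

section all

open TensorProduct Pool.Agent.H204R3.CM Pool.Agent.W516.KC Pool.Agent.W516.DR

/-- The main theorem: the Lie algebra contains the endomorphisms that kill a set of Tate forms, if
this holds for central endomorphisms. -/
theorem refl_all' {k : Type*} [Field k] [CharZero k] {V : Type*} [AddCommGroup V]
    [Module k V] [FiniteDimensional k V]
    {Γ : Type*} [Group Γ] (ρ : Representation k Γ V) (χ : Γ →* k)
    (ω : V →ₗ[k] V →ₗ[k] k) (halt : ∀ v, ω v v = 0) (hnd : ∀ u, (∀ v, ω u v = 0) → u = 0)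
    (hωρ : ∀ s u v, ω (ρ s u) (ρ s v) = χ s * ω u v)
    (hss : FiniteIndexSemisimple ρ)
    (Ω : Type*) [Field Ω] [CharZero Ω] [Algebra k Ω] [Algebra.IsAlgebraic k Ω] [IsAlgClosed Ω]
    (hfm : Fam (bcr ρ Ω) (bcc χ Ω))
    (S : ∀ m, MultilinearMap k (fun _ : Fin m × Fin 2 => V) k → Prop)
    (hS : ∀ m φ, S m φ → IsTate ρ χ m φ)
    (hcen : ∀ C : Module.End k V, AlmostEquivariant ρ C →
      (∀ Q : Module.End k V, AlmostEquivariant ρ Q → C * Q = Q * C) →
      (∀ m φ, S m φ → Kills C φ) → C ∈ lieT ρ χ)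
    (Z : Module.End k V) (hZs : ∀ u v, ω (Z u) v + ω u (Z v) = 0)
    (hZc : ∀ Q : Module.End k V, AlmostEquivariant ρ Q → Z * Q = Q * Z)
    (hZk : ∀ m φ, S m φ → Kills Z φ) : Z ∈ lieT ρ χ := by
  classical
  have hanti : ∀ u v, ω u v = -ω v u := by
    intro u v
    have h1 := halt (u + v)
    simp only [map_add, LinearMap.add_apply, halt, zero_add, add_zero] at h1
    exact eq_neg_of_add_eq_zero_left (by rw [← h1]; ring)
  have hnd' : ∀ u, (∀ v, ω v u = 0) → u = 0 := by
    intro u hu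
    apply hnd
    intro v
    rw [hanti, hu, neg_zero]
  let b := Module.finBasis k V
  have hproj : HasProj (bcr ρ Ω) := hasProj_bcr ρ Ω hss
  -- descent of almost equivariant endomorphisms
  have hdesc : ∀ (Q : Module.End Ω (Ω ⊗[k] V)), AlmostEquivariant (bcr ρ Ω) Q →
      ∀ lam : Ω →ₗ[k] k, AlmostEquivariant ρ (cmpE lam Q) := by
    rintro Q ⟨Δ, hΔ, hQ⟩ lam
    refine ⟨Δ, hΔ, fun s hs v => ?_⟩
    have h1 : Q * (ρ s).baseChange Ω = (ρ s).baseChange Ω * Q := LinearMap.ext fun v => hQ s hs v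
    exact congrArg (fun f : Module.End k V => f v) ((comm_iff (ρ s) Q).2 h1 lam)
  have hext : ∀ (Q : Module.End k V), AlmostEquivariant ρ Q →
      AlmostEquivariant (bcr ρ Ω) (Q.baseChange Ω) := by
    rintro Q ⟨Δ, hΔ, hQ⟩
    refine ⟨Δ, hΔ, fun s hs v => ?_⟩
    have h1 : Q * ρ s = ρ s * Q := LinearMap.ext fun v => hQ s hs v
    have h2 := congrArg (LinearMap.baseChange Ω) h1
    rw [LinearMap.baseChange_mul, LinearMap.baseChange_mul] at h2
    exact congrArg (fun f : Module.End Ω (Ω ⊗[k] V) => f v) h2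
  have hZs' : ∀ u w, bcb Ω ω (Z.baseChange Ω u) w + bcb Ω ω u (Z.baseChange Ω w) = 0 :=
    skew_ext (k := Ω) ω (bcb Ω ω) (fun u v => bcb_one ω u v) hZs
  have hZc' : ∀ Q, AlmostEquivariant (bcr ρ Ω) Q → ∀ v,
      Z.baseChange Ω (Q v) = Q (Z.baseChange Ω v) := by
    intro Q hQ v
    have h1 : Q * Z.baseChange Ω = Z.baseChange Ω * Q :=
      (comm_iff Z Q).1 fun lam => (hZc _ (hdesc Q hQ lam)).symm
    exact congrArg (fun f : Module.End Ω (Ω ⊗[k] V) => f v) h1.symm
  obtain ⟨C, hCalm, hCc, hY⟩ := decompose' (R := bcr ρ Ω) (χ := bcc χ Ω) (bcb Ω ω)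
    (Pool.Agent.W522.U.bcb_nondeg_left ω hnd' hnd) (fun g u v => bcb_inv ρ χ ω hωρ g u v)
    hfm hproj (Z.baseChange Ω) hZs' hZc'
  have hCcomm : ∀ Q, AlmostEquivariant (bcr ρ Ω) Q → C * Q = Q * C := fun Q hQ =>
    LinearMap.ext fun v => hCc Q hQ v
  -- kills
  have hsum : ∀ (m : ℕ) (φ : MultilinearMap k (fun _ : Fin m × Fin 2 => V) k),
      IsTate ρ χ m φ → (Kills (Z.baseChange Ω) (bcm (Ω := Ω) b φ) ↔
        Kills C (bcm (Ω := Ω) b φ)) := by
    intro m φ hφ
    have h1 := hY m _ (bcm_tate b ρ χ φ hφ)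
    have h2 : ∀ v : Fin m × Fin 2 → Ω ⊗[k] V, ∑ j, bcm (Ω := Ω) b φ (Function.update v j
        (Z.baseChange Ω (v j))) = ∑ j, bcm (Ω := Ω) b φ (Function.update v j (C (v j))) := by
      intro v
      rw [← sub_eq_zero, ← Finset.sum_sub_distrib, ← h1 v]
      refine Finset.sum_congr rfl fun j _ => ?_
      rw [LinearMap.sub_apply, MultilinearMap.map_update_sub]
    constructor
    · intro h v
      rw [← h2, h v]
    · intro h v
      rw [h2, h v]
  have hCmem : ∀ lam : Ω →ₗ[k] k, cmpE lam C ∈ lieT ρ χ := by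
    intro lam
    refine hcen _ (hdesc _ hCalm lam) (fun Q hQ => ?_) (fun m φ hφ => ?_)
    · exact (comm_iff Q C).2 (hCcomm _ (hext Q hQ)) lam
    · refine (kills_bcm_iff b φ C).1 ((hsum m φ (hS m φ hφ)).1 ?_) lam
      exact kills_ext _ φ (fun v => bcm_one b φ v) Z (hZk m φ hφ)
  intro m φ hφ
  have h1 : Kills (Z.baseChange Ω) (bcm (Ω := Ω) b φ) := (hsum m φ hφ).2
    ((kills_bcm_iff b φ C).2 fun lam => hCmem lam m φ hφ)
  intro v
  have h2 := h1 (fun l => (1 : Ω) ⊗ₜ[k] v l)
  have h3 : ∀ j, Function.update (fun l => (1 : Ω) ⊗ₜ[k] v l) j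
      (Z.baseChange Ω ((1 : Ω) ⊗ₜ[k] v j)) = fun l => (1 : Ω) ⊗ₜ[k] Function.update v j (Z (v j)) l := by
    intro j
    funext l
    by_cases hl : l = j
    · subst hl
      rw [Function.update_self, Function.update_self, LinearMap.baseChange_tmul]
    · rw [Function.update_of_ne hl, Function.update_of_ne hl]
  simp only [h3, bcm_one] at h2
  rw [← map_sum] at h2
  exact (map_eq_zero_iff _ (algebraMap k Ω).injective).1 h2

end all

section mt

open TensorProduct Pool.Agent.W516.KC Pool.Agent.W516.MTD Pool.Agent.W516.DR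
open Pool.Agent.W516.MTM (almost_of_endos comm_endos' hc_iff)

variable {k : Type} [Field k] [CharZero k] {W T : Type} [AddCommGroup W] [Module ℚ W]
  [FiniteDimensional ℚ W] [AddCommGroup T] [Module ℂ T] (per : W →+ T)
  {Γ : Type} [Group Γ] (ρ : Representation k Γ (k ⊗[ℚ] W)) (χ : Γ →* k)
  (ω₀ : W →ₗ[ℚ] W →ₗ[ℚ] ℚ) (ω : k ⊗[ℚ] W →ₗ[k] k ⊗[ℚ] W →ₗ[k] k)
  (hH : IsHodgeBilinear per ω₀)
  (hωω : ∀ u v : W, ω ((1 : k) ⊗ₜ[ℚ] u) ((1 : k) ⊗ₜ[ℚ] v) = algebraMap ℚ k (ω₀ u v))
  (hωρ : ∀ s u v, ω (ρ s u) (ρ s v) = χ s * ω u v)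
  (hD : Deligne per ρ χ)

include hH hωω hωρ hD in
theorem mt_of_fam (hper : Pool.Agent.W516.MTD.IsRationalStructure per) (halt : ∀ v, ω v v = 0)
    (hnd : ∀ u, (∀ v, ω u v = 0) → u = 0)
    (hss : FiniteIndexSemisimple ρ) (hF : Faltings per ρ) (hC : Centres per ρ χ)
    (Ω : Type) [Field Ω] [CharZero Ω] [Algebra k Ω] [Algebra.IsAlgebraic k Ω] [IsAlgClosed Ω]
    (hfm : Fam (bcr ρ Ω) (bcc χ Ω))
    (m : ℕ) (φ : MultilinearMap k (fun _ : Fin m × Fin 2 => k ⊗[ℚ] W) k)
    (hφ : IsTateTensor ρ χ m φ) : Pool.Agent.W516.MTD.IsHodgeCombination per φ := by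
  classical
  have hnd₀ : ∀ u, (∀ v, ω₀ u v = 0) → u = 0 := by
    intro u hu
    have h1 : (1 : k) ⊗ₜ[ℚ] u = 0 := by
      apply hnd
      have h2 : ω ((1 : k) ⊗ₜ[ℚ] u) = 0 := by
        refine TensorProduct.AlgebraTensorModule.ext fun c v => ?_
        have h3 : c ⊗ₜ[ℚ] v = c • ((1 : k) ⊗ₜ[ℚ] v) := by rw [smul_tmul', smul_eq_mul, mul_one]
        rw [h3, map_smul, hωω, hu, map_zero, smul_zero]
        simp
      intro v
      rw [h2, LinearMap.zero_apply]
    let b := finBasis ℚ W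
    apply b.repr.injective
    ext i
    have h2 := congrArg (fun z => (b.baseChange k).repr z i) h1
    simp only [Basis.baseChange_repr_tmul, map_zero, Finsupp.zero_apply] at h2
    rw [map_zero, Finsupp.zero_apply]
    rw [Algebra.smul_def, mul_one] at h2
    exact (map_eq_zero_iff _ (algebraMap ℚ k).injective).1 h2
  have hmem : ∀ Z₀ : Module.End ℚ W, (∀ (m' : ℕ)
      (ψ : MultilinearMap ℚ (fun _ : Fin m' × Fin 2 => W) ℚ), IsHodgeTensor per ψ →
        Kills Z₀ ψ) → Z₀.baseChange k ∈ lieT ρ χ := by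
    intro Z₀ hk
    have hZs : IsSkew ω (Z₀.baseChange k) :=
      skew_ext ω₀ ω hωω ((kills_one2 ω₀ Z₀).1 (hk 1 _ (one2_hodge per ω₀ hH)))
    refine refl_all' ρ χ ω halt hnd hωρ hss Ω hfm
      (fun m φ => Pool.Agent.W516.MTD.IsHodgeCombination per φ) (fun m φ hφ => ?_) (fun C hC1 hC2 hC3 => ?_)
      (Z₀.baseChange k) hZs (fun Q hQ => ?_) (fun m φ hφ => ?_)
    · -- combinations of Hodge classes are Tate classes
      rw [hc_iff] at hφ
      induction hφ using Submodule.span_induction with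
      | mem φ h =>
        obtain ⟨ψ, h1, h2⟩ := h
        exact hD m ψ h1 φ (fun v => by rw [h2 v, eq_ratCast])
      | zero =>
        refine ⟨⊤, inferInstance, fun s _ v => ?_⟩
        change (0 : k) = χ s ^ m * 0
        rw [mul_zero]
      | add a b _ _ ha hb =>
        obtain ⟨Δ, hΔ, h1⟩ := ha
        obtain ⟨Δ', hΔ', h2⟩ := hb
        refine ⟨Δ ⊓ Δ', inferInstance, fun s hs v => ?_⟩
        change a _ + b _ = χ s ^ m * (a v + b v)
        rw [h1 s hs.1, h2 s hs.2, mul_add]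
      | smul c a _ ha =>
        obtain ⟨Δ, hΔ, h1⟩ := ha
        refine ⟨Δ, hΔ, fun s hs v => ?_⟩
        change c * a _ = χ s ^ m * (c * a v)
        rw [h1 s hs]
        ring
    · refine hC C (hF C hC1) (fun Q hQ => ?_) hC3
      exact hC2 Q (almost_of_endos per ρ χ ω₀ ω hH hnd₀ hωω hωρ hD hQ)
    · exact comm_endos' per ω₀ hH hnd₀ Z₀ hk (hF Q hQ)
    · exact kills_span (fun ψ => IsHodgeTensor per ψ) Z₀ (hk m) φ ((hc_iff per φ).1 hφ)
  rw [hc_iff]
  refine form_mem_span (fun ψ => IsHodgeTensor per ψ) φ fun lam => ?_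
  refine hodge_of_kills per hper _ fun Z₀ hk => ?_
  exact kills_fcmp lam φ Z₀ (hmem Z₀ hk m φ hφ)

end mt

end

end Pool.Agent.W522.J
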